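import Mathlib

/-! The flag lemma (sheet X of helper71), general form (helper46). -/

set_option autoImplicit false

namespace Pool.Agent.Helper46.HX

open Finset

section
variable {K V κ : Type*} [Field K] [AddCommGroup V] [Module K V] [Fintype κ] [DecidableEq κ]

/-- one pivot -/
theorem pivot (w : AbsoluteValue K ℝ) (W : Submodule K (κ → K)) (T : Finset κ)
    (hW : Fintype.card κ < Module.finrank K W + T.card) :
    ∃ u ∈ W, ∃ k ∈ T, u k = 1 ∧ (∀ l, w (u l) ≤ 1) ∧ ∀ l, l ∉ T → u l = 0 := by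
  classical
  -- restriction to the complement
  let R : W →ₗ[K] ({l : κ // l ∉ T} → K) :=
    { toFun := fun u l => (u : κ → K) l
      map_add' := fun _ _ => rfl
      map_smul' := fun _ _ => rfl }
  have hcard : Module.finrank K ({l : κ // l ∉ T} → K) < Module.finrank K W := by
    rw [Module.finrank_fintype_fun_eq_card, Fintype.card_subtype_compl]
    have h1 : Fintype.card {x : κ // x ∈ T} = T.card := Fintype.card_coe T
    have h2 : T.card ≤ Fintype.card κ := Finset.card_le_univ T
    omega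
  have hker := LinearMap.ker_ne_bot_of_finrank_lt (f := R) hcard
  obtain ⟨u, hu, hu0⟩ := Submodule.exists_mem_ne_zero_of_ne_bot hker
  have hR : ∀ l, l ∉ T → (u : κ → K) l = 0 := by
    intro l hl
    have h1 : R u = 0 := hu
    exact congrFun h1 ⟨l, hl⟩
  have hne : ∃ l, (u : κ → K) l ≠ 0 := by
    by_contra h
    push Not at h
    apply hu0
    ext l
    exact h l
  obtain ⟨l₀, hl₀⟩ := hne
  have hlT : l₀ ∈ T := by
    by_contra h
    exact hl₀ (hR l₀ h)
  obtain ⟨k, hkT, hk⟩ := Finset.exists_max_image T (fun l => w ((u : κ → K) l)) ⟨l₀, hlT⟩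
  have hk0 : (u : κ → K) k ≠ 0 := by
    intro h
    have h1 := hk l₀ hlT
    simp only [h, map_zero] at h1
    exact absurd h1 (not_le.2 (w.pos hl₀))
  refine ⟨((u : κ → K) k)⁻¹ • (u : κ → K), W.smul_mem _ u.2, k, hkT, ?_, ?_, ?_⟩
  · rw [Pi.smul_apply, smul_eq_mul, inv_mul_cancel₀ hk0]
  · intro l
    rw [Pi.smul_apply, smul_eq_mul, map_mul, map_inv₀, inv_mul_le_one₀ (w.pos hk0)]
    by_cases hl : l ∈ T
    · exact hk l hl
    · rw [hR l hl, map_zero]
      exact w.nonneg _
  · intro l hl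
    rw [Pi.smul_apply, hR l hl, smul_zero]

/-- the flag on a subset -/
theorem flag_aux (e : κ → V) (w : AbsoluteValue K ℝ) (v : V → ℝ) (W : ℕ → Submodule K (κ → K))
    (s : ℕ → ℝ) (hW : ∀ b, b < Fintype.card κ → Fintype.card κ ≤ Module.finrank K (W b) + b)
    (hv : ∀ b, b < Fintype.card κ → ∀ u ∈ W b, (∀ k, w (u k) ≤ 1) →
      v (∑ k, u k • e k) ≤ s b) :
    ∀ (t : ℕ) (T : Finset κ), T.card = t → ∃ (ρ : κ → ℕ) (f : κ → V), (∀ k ∈ T, ρ k < t) ∧
      (∀ k ∈ T, ∀ l ∈ T, ρ k = ρ l → k = l) ∧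
      (∀ k ∈ T, f k - e k ∈ Submodule.span K (e '' {l | l ∈ T ∧ ρ l < ρ k})) ∧
      ∀ k ∈ T, v (f k) ≤ s (ρ k) := by
  intro t
  induction t with
  | zero =>
    intro T hT
    rw [Finset.card_eq_zero] at hT
    subst hT
    exact ⟨fun _ => 0, e, by simp, by simp, by simp, by simp⟩
  | succ t ih =>
    intro T hT
    have htn : t < Fintype.card κ := by
      have := Finset.card_le_univ T
      omega
    obtain ⟨u, hu, k₀, hk₀, huk, hu1, hu0⟩ := pivot w (W t) T (by
      have := hW t htn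
      omega)
    obtain ⟨ρ, f, h1, h2, h3, h4⟩ := ih (T.erase k₀) (by
      rw [Finset.card_erase_of_mem hk₀, hT]
      rfl)
    refine ⟨fun k => if k = k₀ then t else ρ k, fun k => if k = k₀ then ∑ k, u k • e k else f k,
      ?_, ?_, ?_, ?_⟩
    · intro k hk
      dsimp only
      split_ifs with h
      · omega
      · have := h1 k (Finset.mem_erase.2 ⟨h, hk⟩)
        omega
    · intro k hk l hl hkl
      dsimp only at hkl
      split_ifs at hkl with ha hb hb
      · rw [ha, hb]
      · have := h1 l (Finset.mem_erase.2 ⟨hb, hl⟩)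
        omega
      · have := h1 k (Finset.mem_erase.2 ⟨ha, hk⟩)
        omega
      · exact h2 k (Finset.mem_erase.2 ⟨ha, hk⟩) l (Finset.mem_erase.2 ⟨hb, hl⟩) hkl
    · intro k hk
      by_cases h : k = k₀
      · subst h
        dsimp only
        rw [if_pos rfl, if_pos rfl]
        have h5 : ∑ l, u l • e l - e k = ∑ l ∈ univ.erase k, u l • e l := by
          rw [← Finset.add_sum_erase univ _ (Finset.mem_univ k), huk, one_smul]
          abel
        rw [h5]
        refine Submodule.sum_mem _ fun l hl => ?_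
        by_cases hlT : l ∈ T
        · refine Submodule.smul_mem _ _ (Submodule.subset_span ⟨l, ⟨hlT, ?_⟩, rfl⟩)
          have hlk : l ≠ k := Finset.ne_of_mem_erase hl
          show (if l = k then t else ρ l) < t
          rw [if_neg hlk]
          exact h1 l (Finset.mem_erase.2 ⟨hlk, hlT⟩)
        · rw [hu0 l hlT, zero_smul]
          exact Submodule.zero_mem _
      · dsimp only
        rw [if_neg h, if_neg h]
        refine Submodule.span_mono (Set.image_mono ?_) (h3 k (Finset.mem_erase.2 ⟨h, hk⟩))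
        rintro l ⟨hl1, hl2⟩
        obtain ⟨hl3, hl4⟩ := Finset.mem_erase.1 hl1
        refine ⟨hl4, ?_⟩
        rw [if_neg hl3]
        exact hl2
    · intro k hk
      by_cases h : k = k₀
      · dsimp only
        rw [if_pos h, if_pos h]
        exact hv t htn u hu hu1
      · dsimp only
        rw [if_neg h, if_neg h]
        exact h4 k (Finset.mem_erase.2 ⟨h, hk⟩)

/-- the flag -/
theorem flag (e : κ → V) (w : AbsoluteValue K ℝ) (v : V → ℝ) (W : ℕ → Submodule K (κ → K))
    (s : ℕ → ℝ) (hW : ∀ b, b < Fintype.card κ → Fintype.card κ ≤ Module.finrank K (W b) + b)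
    (hv : ∀ b, b < Fintype.card κ → ∀ u ∈ W b, (∀ k, w (u k) ≤ 1) →
      v (∑ k, u k • e k) ≤ s b) :
    ∃ (ρ : κ → ℕ) (f : κ → V), (∀ k, ρ k < Fintype.card κ) ∧ Function.Injective ρ ∧
      (∀ k, f k - e k ∈ Submodule.span K (e '' {l | ρ l < ρ k})) ∧ ∀ k, v (f k) ≤ s (ρ k) := by
  obtain ⟨ρ, f, h1, h2, h3, h4⟩ := flag_aux e w v W s hW hv (Fintype.card κ) univ
    Finset.card_univ
  refine ⟨ρ, f, fun k => h1 k (mem_univ k), fun k l h => h2 k (mem_univ k) l (mem_univ l) h,
    fun k => ?_, fun k => h4 k (mem_univ k)⟩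
  refine Submodule.span_mono (Set.image_mono ?_) (h3 k (mem_univ k))
  rintro l ⟨-, hl⟩
  exact hl

end

end Pool.Agent.Helper46.HX
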