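import Pool.Agent.Helper71.HN.SheetX
import Pool.Agent.Helper46.HX.FLG0

/-! Row FLG of sheet X (helper46). -/

set_option autoImplicit false

namespace Pool.Agent.Helper71.HX

theorem st_FLG : ST_FLG := by
  intro F Ω _ _ _ K κ _ v e W s hW hv
  classical
  obtain ⟨ρ, f, h1, h2, h3, h4⟩ := Pool.Agent.Helper46.HX.flag (K := K) e
    (v.comp (f := algebraMap K Ω) (algebraMap K Ω).injective) v W s hW (by
      intro b hb u hu hu1
      have h := hv b hb u hu hu1
      exact h)
  exact ⟨f, ρ, h2, h1, h3, h4⟩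

end Pool.Agent.Helper71.HX
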